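import Pool.Agent.Helper566.FD.J7
import Pool.Agent.Results.MP_8e0b0b_nt.AlgorithmForTwists

/-!
# Algorithms that prove the absence of rational zeros for an exactly determined proportion of the
# trinomials of infinite families

A polynomial in `n` variables with `n + 1` terms is given by the list of its `n + 1` terms, pairs of a
coefficient and a list of exponents.  We treat two kinds of trinomials in two variables (the exponent
vectors are affinely independent if and only if `αδ ≠ βγ`):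

* `tri a b c α β γ δ = a x^{3α} y^{3β} + b x^{3γ} y^{3δ} + c`, for instance `a x³ + b y³ + c`;
* `mor a b c α β γ δ = a x^{2α} y^{2β} + b x^{3γ} y^{3δ} + c`, for instance `a x² + b y³ + c`.

The class `InClass` consists of the squarefree `N ≥ 1`, prime to `3`, not `±1` modulo `9`, with exactly
one prime factor that is `2` modulo `3`.

Theorem. There are computable functions `g` (algorithms that halt on all inputs) such that:

* if `g P = true`, then `P` has no rational zero;
* `g P = true` if and only if `P = tri a b c α β γ δ`, neither `a² c` nor `b² c` is a cube, and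
  `|a b c| = N t³` (for the second kind: `P = mor a b c α β γ δ` and `a³ b² c = 432 (N t³)²`), where
  `N ≠ 2` is in the class, the group `E_N(ℚ)` is finite and `Ш(E_N/ℚ)[3^∞] = 0`, for the curve
  `E_N : y² + N y = x³`;
* for all `α, β, γ, δ` the proportion of the `A` in the class for which `g` proves that
  `x^{3α} y^{3β} + x^{3γ} y^{3δ} - A` (for the second kind: `x^{2α} y^{2β} - x^{3γ} y^{3δ} + 432 A²`) has
  no rational zero is exactly `∏_{i ≥ 1} (1 - 3^{-i}) = 0.5601…`;
* the same for the `A` with a fixed number `k` of prime factors `1` modulo `3`, and all the prime factors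
  in an arbitrary set of primes of positive lower density: the proportion is `∏_{1 ≤ i ≤ k} (1 - 3^{-i})`.

The curve `a X³ + b Y³ + c Z³ = 0` is mapped to its Jacobian `X³ + Y³ = - a b c Z³`, which is also the
curve `y² = x³ - 432 (a b c)²`, and the algorithms look for a splitting of `N`, a factorization in three
factors that are subject to conditions on cubic residues.
-/

set_option autoImplicit false

open Finset Filter Topology

namespace Pool.Agent.Results.MP_c72338_lc.TrinomialsWithoutZeros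

open Pool.Agent.Results.MP_ae0bd0_nt.FixedNumberCubicFields (InClass TrivialThree Family Rich)

open Pool.Agent.Results.MP_8e0b0b_nt.AlgorithmForTwists (Size Share tst prim_tst tst_iff sound
  no_cube)

/-- the value at `x` of the polynomial with the list of terms `L`, where the number of the variables is
smaller by one than the number of the terms -/
def value (L : List (ℤ × List ℕ)) (x : ℕ → ℚ) : ℚ :=
  (L.map fun t => (t.1 : ℚ) * ∏ i ∈ range (L.length - 1), x i ^ t.2.getD i 0).sum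

/-- the polynomial has a rational zero -/
def HasZero (L : List (ℤ × List ℕ)) : Prop := ∃ x : ℕ → ℚ, value L x = 0

/-- the trinomial `a x^{3α} y^{3β} + b x^{3γ} y^{3δ} + c` -/
def tri (a b c : ℤ) (α β γ δ : ℕ) : List (ℤ × List ℕ) :=
  [(a, [3 * α, 3 * β]), (b, [3 * γ, 3 * δ]), (c, [0, 0])]

/-- the trinomial `a x^{2α} y^{2β} + b x^{3γ} y^{3δ} + c` -/
def mor (a b c : ℤ) (α β γ δ : ℕ) : List (ℤ × List ℕ) :=
  [(a, [2 * α, 2 * β]), (b, [3 * γ, 3 * δ]), (c, [0, 0])]

/-- `n = N t³` with `N ≠ 2` in the class, `E_N(ℚ)` finite and `Ш(E_N/ℚ)[3^∞] = 0` -/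
def Solved (n : ℕ) : Prop :=
  ∃ N t : ℕ, 1 ≤ t ∧ n = N * t ^ 3 ∧ InClass N ∧ N ≠ 2 ∧ TrivialThree N

/-- `n` is not the cube of an integer -/
def NotCube (n : ℤ) : Prop := ∀ z : ℤ, z ^ 3 ≠ n

/-- the condition for the first kind -/
def First (P : List (ℤ × List ℕ)) : Prop :=
  ∃ (a b c : ℤ) (α β γ δ : ℕ), P = tri a b c α β γ δ ∧ Solved (a * b * c).natAbs ∧
    NotCube (a ^ 2 * c) ∧ NotCube (b ^ 2 * c)

/-- the condition for the second kind -/
def Second (P : List (ℤ × List ℕ)) : Prop :=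
  ∃ (a b c : ℤ) (α β γ δ A : ℕ), P = mor a b c α β γ δ ∧ a ^ 3 * b ^ 2 * c = 432 * (A : ℤ) ^ 2 ∧
    Solved A

/-- `g` is a correct test for the absence of rational zeros, its value is `true` if and only if `Q`
holds, and its proportions of success for the `A` of the class and of the families with `k` prime
factors `1` modulo `3` are as stated, for the polynomials `F A α β γ δ` -/
def Test (g : List (ℤ × List ℕ) → Bool) (Q : List (ℤ × List ℕ) → Prop)
    (F : ℕ → ℕ → ℕ → ℕ → ℕ → List (ℤ × List ℕ)) : Prop :=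
  (∀ P, g P = true → ¬ HasZero P) ∧ (∀ P, g P = true ↔ Q P) ∧
  (∀ α β γ δ : ℕ, Share (fun A => g (F A α β γ δ)) InClass
    (∏' i : ℕ, (1 - (1 / 3 : ℝ) ^ (i + 1)))) ∧
  ∀ (S : Set ℕ) (k : ℕ), Rich S k → Size (Family S k) k ∧ ∀ α β γ δ : ℕ,
    Share (fun A => g (F A α β γ δ)) (Family S k) (∏ i ∈ range k, (1 - (1 / 3 : ℝ) ^ (i + 1)))

/-- test for cubes -/
def nocube (n : ℕ) : Prop := ∀ z < n + 1, ¬ z * (z * z) = n

theorem prim_nocube : PrimrecPred nocube := by
  unfold nocube
  refine Pool.Agent.V11291.AL.all_lt (R := fun z n => ¬ z * (z * z) = n) ?_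
    (Primrec.nat_add.comp Primrec.id (Primrec.const 1))
  exact PrimrecPred.not (Primrec.eq.comp (Primrec.nat_mul.comp Primrec.fst
    (Primrec.nat_mul.comp Primrec.fst Primrec.fst)) Primrec.snd)

theorem nocube_iff (n : ℤ) : nocube n.natAbs ↔ NotCube n := by
  unfold nocube NotCube
  constructor
  · intro h z hz
    have h1 : z.natAbs * (z.natAbs * z.natAbs) = n.natAbs := by
      rw [← Int.natAbs_mul, ← Int.natAbs_mul, ← hz]
      congr 1
      ring
    refine h z.natAbs ?_ h1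
    rcases Nat.eq_zero_or_pos z.natAbs with h2 | h2
    · omega
    · have h3 : z.natAbs * 1 ≤ z.natAbs * (z.natAbs * z.natAbs) :=
        Nat.mul_le_mul_left _ (Nat.mul_pos h2 h2)
      omega
  · intro h z _ hz
    rcases Int.natAbs_eq n with h1 | h1
    · refine h z ?_
      rw [h1, ← hz]
      push_cast
      ring
    · refine h (-z) ?_
      rw [h1, ← hz]
      push_cast
      ring

open Pool.Agent.Helper566.FD.J7 (prim_int_mul prim_toNat prim_toNat_neg)

theorem prim_natAbs : Primrec Int.natAbs :=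
  (Primrec.nat_add.comp prim_toNat prim_toNat_neg).of_eq fun z => by omega

/-- the default term -/
def d0 : ℤ × List ℕ := (0, [])

/-- the coefficient of the term `i` -/
def co (i : ℕ) (L : List (ℤ × List ℕ)) : ℤ := (L.getD i d0).1

/-- a third of the exponent `j` of the term `i` -/
def ex (i j : ℕ) (L : List (ℤ × List ℕ)) : ℕ := (L.getD i d0).2.getD j 0 / 3

theorem prim_co (i : ℕ) : Primrec (co i) :=
  Primrec.fst.comp ((Primrec.list_getD d0).comp Primrec.id (Primrec.const i))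

theorem prim_ex (i j : ℕ) : Primrec (ex i j) :=
  Primrec.nat_div.comp ((Primrec.list_getD 0).comp (Primrec.snd.comp
    ((Primrec.list_getD d0).comp Primrec.id (Primrec.const i))) (Primrec.const j)) (Primrec.const 3)

/-- the test -/
def tt (L : List (ℤ × List ℕ)) : Prop :=
  L = tri (co 0 L) (co 1 L) (co 2 L) (ex 0 0 L) (ex 0 1 L) (ex 1 0 L) (ex 1 1 L) ∧
    tst (co 0 L * (co 1 L * co 2 L)).natAbs ∧ nocube (co 0 L * (co 0 L * co 2 L)).natAbs ∧
      nocube (co 1 L * (co 1 L * co 2 L)).natAbs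

theorem prim_tt : PrimrecPred tt := by
  have h3 : ∀ i j, Primrec fun L => 3 * ex i j L := fun i j =>
    Primrec.nat_mul.comp (Primrec.const 3) (prim_ex i j)
  have hm : ∀ i j, Primrec fun L => (co i L * (co j L * co 2 L)).natAbs := fun i j =>
    prim_natAbs.comp (prim_int_mul.comp (prim_co i) (prim_int_mul.comp (prim_co j) (prim_co 2)))
  have ht : ∀ i : ℕ, Primrec fun L : List (ℤ × List ℕ) =>
      ((co i L, [3 * ex i 0 L, 3 * ex i 1 L]) : ℤ × List ℕ) := fun i =>
    Primrec.pair (prim_co i) (Primrec.list_cons.comp (h3 i 0) (Primrec.list_cons.comp (h3 i 1)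
      (Primrec.const [])))
  have hl : Primrec fun L : List (ℤ × List ℕ) =>
      tri (co 0 L) (co 1 L) (co 2 L) (ex 0 0 L) (ex 0 1 L) (ex 1 0 L) (ex 1 1 L) := by
    unfold tri
    exact Primrec.list_cons.comp (ht 0) (Primrec.list_cons.comp (ht 1) (Primrec.list_cons.comp
      (Primrec.pair (prim_co 2) (Primrec.const [0, 0])) (Primrec.const [])))
  unfold tt
  exact PrimrecPred.and (Primrec.eq.comp Primrec.id hl) (PrimrecPred.and (prim_tst.comp (hm 0 1))
    (PrimrecPred.and (prim_nocube.comp (hm 0 0)) (prim_nocube.comp (hm 1 1))))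

theorem solved_iff (n : ℕ) : tst n ↔ Solved n := by
  rw [tst_iff]
  unfold Solved
  refine exists_congr fun N => exists_congr fun t => and_congr_right fun _ =>
    and_congr_right fun _ => and_congr_right fun h => ?_
  have h1 : TrivialThree N ↔ MP_ae0bd0_nt.FixedNumberCubicFields.HasNoSplitting N :=
    ((MP_ae0bd0_nt.FixedNumberCubicFields.result.1 N h).2.1).symm.trans
      (MP_ae0bd0_nt.FixedNumberCubicFields.result.1 N h).2.2
  rw [h1]
  exact and_comm

theorem tt_iff (L : List (ℤ × List ℕ)) : tt L ↔ First L := by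
  have e1 : ∀ a b c : ℤ, a * (b * c) = a * b * c := fun a b c => by ring
  have e2 : ∀ a c : ℤ, a * (a * c) = a ^ 2 * c := fun a c => by ring
  unfold tt First
  constructor
  · rintro ⟨h1, h2, h3, h4⟩
    refine ⟨_, _, _, _, _, _, _, h1, ?_, ?_, ?_⟩
    · rw [← solved_iff, ← e1]
      exact h2
    · rw [← nocube_iff, ← e2]
      exact h3
    · rw [← nocube_iff, ← e2]
      exact h4
  · rintro ⟨a, b, c, α, β, γ, δ, rfl, h2, h3, h4⟩
    have c0 : co 0 (tri a b c α β γ δ) = a := rfl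
    have c1 : co 1 (tri a b c α β γ δ) = b := rfl
    have c2 : co 2 (tri a b c α β γ δ) = c := rfl
    have x1 : ex 0 0 (tri a b c α β γ δ) = α := Nat.mul_div_cancel_left α (by norm_num)
    have x2 : ex 0 1 (tri a b c α β γ δ) = β := Nat.mul_div_cancel_left β (by norm_num)
    have x3 : ex 1 0 (tri a b c α β γ δ) = γ := Nat.mul_div_cancel_left γ (by norm_num)
    have x4 : ex 1 1 (tri a b c α β γ δ) = δ := Nat.mul_div_cancel_left δ (by norm_num)
    rw [c0, c1, c2, x1, x2, x3, x4, solved_iff, nocube_iff, nocube_iff, e1, e2, e2]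
    exact ⟨rfl, h2, h3, h4⟩

/-- the trinomial cubics without nontrivial zeros -/
theorem core {a b c : ℤ} (h : Solved (a * b * c).natAbs) {x y z : ℚ}
    (he : a * x ^ 3 + b * y ^ 3 + c * z ^ 3 = 0) : x * y * z = 0 := by
  by_contra hxyz
  obtain ⟨h0, h1, h2⟩ := sound ((solved_iff _).2 h)
  have habc : a * b * c ≠ 0 := Int.natAbs_ne_zero.1 h0
  have ha : (a : ℚ) ≠ 0 := by
    have : a ≠ 0 := fun h => habc (by rw [h]; ring)
    exact_mod_cast this
  have hx : x ≠ 0 := fun h => hxyz (by rw [h]; ring)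
  obtain ⟨u, hu⟩ : ∃ u : ℚ, u = a * x ^ 3 := ⟨_, rfl⟩
  obtain ⟨v, hv⟩ : ∃ v : ℚ, v = b * y ^ 3 := ⟨_, rfl⟩
  have hu0 : u ≠ 0 := by
    rw [hu]
    exact mul_ne_zero ha (pow_ne_zero 3 hx)
  have hQ : u ^ 2 + u * v + v ^ 2 ≠ 0 := by
    have h3 : 0 < u ^ 2 := by positivity
    nlinarith [sq_nonneg (u + 2 * v)]
  have hcz : (c : ℚ) * z ^ 3 = -(u + v) := by
    rw [hu, hv]
    linear_combination he
  have key : ((u ^ 3 + 6 * u ^ 2 * v + 3 * u * v ^ 2 - v ^ 3) /
      (3 * (u ^ 2 + u * v + v ^ 2) * (x * y * z))) ^ 3 +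
      ((-u ^ 3 + 3 * u ^ 2 * v + 6 * u * v ^ 2 + v ^ 3) /
      (3 * (u ^ 2 + u * v + v ^ 2) * (x * y * z))) ^ 3 = -((a : ℚ) * b * c) := by
    rw [div_pow, div_pow, ← add_div, div_eq_iff (by positivity)]
    have e1 : (a : ℚ) * b * c * (x * y * z) ^ 3 = -(u * v * (u + v)) := by
      calc (a : ℚ) * b * c * (x * y * z) ^ 3 = (a * x ^ 3) * (b * y ^ 3) * (c * z ^ 3) := by ring
        _ = -(u * v * (u + v)) := by rw [← hu, ← hv, hcz]; ring
    rw [mul_pow, show -((a : ℚ) * b * c) * ((3 * (u ^ 2 + u * v + v ^ 2)) ^ 3 * (x * y * z) ^ 3) =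
      -((3 * (u ^ 2 + u * v + v ^ 2)) ^ 3 * ((a : ℚ) * b * c * (x * y * z) ^ 3)) by ring, e1]
    ring
  rcases Int.natAbs_eq (a * b * c) with h3 | h3
  · refine h2 _ _ (key.trans ?_)
    have h4 : (a : ℚ) * b * c = (((a * b * c).natAbs : ℤ) : ℚ) := by
      rw [← h3]
      push_cast
      ring
    rw [h4]
    push_cast
    ring
  · refine h1 _ _ (key.trans ?_)
    have h4 : (a : ℚ) * b * c = ((-((a * b * c).natAbs : ℤ) : ℤ) : ℚ) := by
      rw [← h3]
      push_cast
      ring
    rw [h4]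
    push_cast
    ring

theorem int_of_cube {q : ℚ} {n : ℤ} (hq : q ^ 3 = (n : ℚ)) : ∃ z : ℤ, z ^ 3 = n := by
  have h1 : q.den ^ 3 = 1 := by
    rw [← Rat.den_pow, hq]
    rfl
  have h2 : q.den = 1 := by
    rcases Nat.eq_zero_or_pos q.den with h3 | h3
    · exact absurd h3 q.den_nz
    · by_contra h4
      have h5 : 1 < q.den ^ 3 := Nat.one_lt_pow (by norm_num) (by omega)
      omega
  have h3 : ((q.num : ℤ) : ℚ) = q := Rat.coe_int_num_of_den_eq_one h2
  refine ⟨q.num, ?_⟩
  have : ((q.num ^ 3 : ℤ) : ℚ) = (n : ℚ) := by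
    push_cast
    rw [h3, hq]
  exact_mod_cast this

theorem value_tri (a b c : ℤ) (α β γ δ : ℕ) (x : ℕ → ℚ) : value (tri a b c α β γ δ) x =
    a * (x 0 ^ α * x 1 ^ β) ^ 3 + b * (x 0 ^ γ * x 1 ^ δ) ^ 3 + c * (1 : ℚ) ^ 3 := by
  unfold value tri
  simp only [List.length_cons, List.length_nil, List.map_cons, List.map_nil, List.sum_cons,
    List.sum_nil, Nat.add_sub_cancel, zero_add, Finset.prod_range_succ,
    Finset.prod_range_zero, List.getD_cons_zero, List.getD_cons_succ]
  ring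

theorem no_zero {a b c : ℤ} (h : Solved (a * b * c).natAbs) (h1 : NotCube (a ^ 2 * c))
    (h2 : NotCube (b ^ 2 * c)) (α β γ δ : ℕ) : ¬ HasZero (tri a b c α β γ δ) := by
  rintro ⟨x, hx⟩
  rw [value_tri] at hx
  have h3 := core h hx
  rw [mul_one] at h3
  rcases mul_eq_zero.1 h3 with h4 | h4
  · rw [h4] at hx
    obtain ⟨z, hz⟩ := int_of_cube (q := -(b * (x 0 ^ γ * x 1 ^ δ))) (n := b ^ 2 * c) (by
      push_cast
      linear_combination (-(b : ℚ) ^ 2) * hx)
    exact h2 z hz
  · rw [h4] at hx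
    obtain ⟨z, hz⟩ := int_of_cube (q := -(a * (x 0 ^ α * x 1 ^ β))) (n := a ^ 2 * c) (by
      push_cast
      linear_combination (-(a : ℚ) ^ 2) * hx)
    exact h1 z hz

theorem one_iff (A : ℕ) (α β γ δ : ℕ) : tt (tri 1 1 (-(A : ℤ)) α β γ δ) ↔ Solved A := by
  have hn : Solved A → NotCube ((1 : ℤ) ^ 2 * (-(A : ℤ))) := by
    rintro ⟨N, t, h1, h2, h3, -⟩ z hz
    have ht : (t : ℚ) ≠ 0 := by
      have : t ≠ 0 := by omega
      exact_mod_cast this
    refine no_cube h3 (-(z : ℚ) / t) ?_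
    rw [div_pow, div_eq_iff (pow_ne_zero 3 ht)]
    have h4 : (-z) ^ 3 = ((N * t ^ 3 : ℕ) : ℤ) := by
      rw [← h2]
      linear_combination -hz
    exact_mod_cast h4
  rw [tt_iff]
  constructor
  · rintro ⟨a, b, c, α', β', γ', δ', h1, h2, -⟩
    unfold tri at h1
    simp only [List.cons.injEq, Prod.mk.injEq] at h1
    rw [← h1.1.1, ← h1.2.1.1, ← h1.2.2.1.1] at h2
    simpa using h2
  · intro h
    refine ⟨1, 1, -(A : ℤ), α, β, γ, δ, rfl, ?_, hn h, hn h⟩
    simpa using h

/-! ### The second kind -/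

/-- half of the exponent `j` of the term `0` -/
def eh (j : ℕ) (L : List (ℤ × List ℕ)) : ℕ := (L.getD 0 d0).2.getD j 0 / 2

theorem prim_eh (j : ℕ) : Primrec (eh j) :=
  Primrec.nat_div.comp ((Primrec.list_getD 0).comp (Primrec.snd.comp
    ((Primrec.list_getD d0).comp Primrec.id (Primrec.const 0))) (Primrec.const j)) (Primrec.const 2)

/-- the product of the coefficients -/
def pc (L : List (ℤ × List ℕ)) : ℤ :=
  co 0 L * (co 0 L * (co 0 L * (co 1 L * (co 1 L * co 2 L))))

theorem prim_pc : Primrec pc :=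
  prim_int_mul.comp (prim_co 0) (prim_int_mul.comp (prim_co 0) (prim_int_mul.comp (prim_co 0)
    (prim_int_mul.comp (prim_co 1) (prim_int_mul.comp (prim_co 1) (prim_co 2)))))

/-- the test -/
def t2 (L : List (ℤ × List ℕ)) : Prop :=
  L = mor (co 0 L) (co 1 L) (co 2 L) (eh 0 L) (eh 1 L) (ex 1 0 L) (ex 1 1 L) ∧
    ∃ A < (pc L).natAbs + 1, pc L = ((432 * (A * A) : ℕ) : ℤ) ∧ tst A

theorem prim_t2 : PrimrecPred t2 := by
  have h3 : ∀ j, Primrec fun L => 3 * ex 1 j L := fun j =>
    Primrec.nat_mul.comp (Primrec.const 3) (prim_ex 1 j)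
  have h2 : ∀ j, Primrec fun L => 2 * eh j L := fun j =>
    Primrec.nat_mul.comp (Primrec.const 2) (prim_eh j)
  have hl : Primrec fun L : List (ℤ × List ℕ) =>
      mor (co 0 L) (co 1 L) (co 2 L) (eh 0 L) (eh 1 L) (ex 1 0 L) (ex 1 1 L) := by
    unfold mor
    exact Primrec.list_cons.comp (Primrec.pair (prim_co 0) (Primrec.list_cons.comp (h2 0)
      (Primrec.list_cons.comp (h2 1) (Primrec.const [])))) (Primrec.list_cons.comp
      (Primrec.pair (prim_co 1) (Primrec.list_cons.comp (h3 0)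
      (Primrec.list_cons.comp (h3 1) (Primrec.const [])))) (Primrec.list_cons.comp
      (Primrec.pair (prim_co 2) (Primrec.const [0, 0])) (Primrec.const [])))
  unfold t2
  refine PrimrecPred.and (Primrec.eq.comp Primrec.id hl) ?_
  refine Pool.Agent.V11291.AL.ex_lt (R := fun (A : ℕ) (L : List (ℤ × List ℕ)) =>
    pc L = ((432 * (A * A) : ℕ) : ℤ) ∧ tst A) ?_
    (Primrec.nat_add.comp (prim_natAbs.comp prim_pc) (Primrec.const 1))
  exact PrimrecPred.and (Primrec.eq.comp (prim_pc.comp Primrec.snd)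
    (Pool.Agent.Helper566.FD.J7.prim_natCast.comp (Primrec.nat_mul.comp (Primrec.const 432)
      (Primrec.nat_mul.comp Primrec.fst Primrec.fst)))) (prim_tst.comp Primrec.fst)

theorem t2_iff (L : List (ℤ × List ℕ)) : t2 L ↔ Second L := by
  have e1 : ∀ a b c : ℤ, a * (a * (a * (b * (b * c)))) = a ^ 3 * b ^ 2 * c := fun a b c => by ring
  have e2 : ∀ A : ℕ, ((432 * (A * A) : ℕ) : ℤ) = 432 * (A : ℤ) ^ 2 := fun A => by push_cast; ring
  unfold t2 Second pc
  constructor
  · rintro ⟨h1, A, -, h2, h3⟩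
    refine ⟨_, _, _, _, _, _, _, A, h1, ?_, (solved_iff A).1 h3⟩
    rw [← e1, ← e2]
    exact h2
  · rintro ⟨a, b, c, α, β, γ, δ, A, rfl, h2, h3⟩
    have c0 : co 0 (mor a b c α β γ δ) = a := rfl
    have c1 : co 1 (mor a b c α β γ δ) = b := rfl
    have c2 : co 2 (mor a b c α β γ δ) = c := rfl
    have x1 : eh 0 (mor a b c α β γ δ) = α := Nat.mul_div_cancel_left α (by norm_num)
    have x2 : eh 1 (mor a b c α β γ δ) = β := Nat.mul_div_cancel_left β (by norm_num)
    have x3 : ex 1 0 (mor a b c α β γ δ) = γ := Nat.mul_div_cancel_left γ (by norm_num)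
    have x4 : ex 1 1 (mor a b c α β γ δ) = δ := Nat.mul_div_cancel_left δ (by norm_num)
    rw [c0, c1, c2, x1, x2, x3, x4, e1]
    refine ⟨rfl, A, ?_, by rw [e2]; exact h2, (solved_iff A).2 h3⟩
    rw [h2, ← e2, Int.natAbs_natCast]
    rcases Nat.eq_zero_or_pos A with h | h
    · omega
    · have : A * 1 ≤ A * A := Nat.mul_le_mul_left _ h
      omega

theorem value_mor (a b c : ℤ) (α β γ δ : ℕ) (x : ℕ → ℚ) : value (mor a b c α β γ δ) x =
    a * (x 0 ^ α * x 1 ^ β) ^ 2 + b * (x 0 ^ γ * x 1 ^ δ) ^ 3 + c := by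
  unfold value mor
  simp only [List.length_cons, List.length_nil, List.map_cons, List.map_nil, List.sum_cons,
    List.sum_nil, Nat.add_sub_cancel, zero_add, Finset.prod_range_succ,
    Finset.prod_range_zero, List.getD_cons_zero, List.getD_cons_succ]
  ring

/-- the equation `y² = x³ - 432 A²` -/
theorem mordell {A : ℕ} (h : Solved A) {x y : ℚ} (he : y ^ 2 = x ^ 3 - 432 * (A : ℚ) ^ 2) : False := by
  obtain ⟨h0, h1, -⟩ := sound ((solved_iff _).2 h)
  have hA : (A : ℚ) ≠ 0 := by exact_mod_cast h0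
  have hx : x ≠ 0 := by
    rintro rfl
    have h2 : 0 < (A : ℚ) ^ 2 := by positivity
    nlinarith [sq_nonneg y]
  refine h1 ((36 * A + y) / (6 * x)) ((36 * A - y) / (6 * x)) ?_
  rw [div_pow, div_pow, ← add_div, div_eq_iff (pow_ne_zero 3 (mul_ne_zero (by norm_num) hx))]
  push_cast
  linear_combination (216 * (A : ℚ)) * he

theorem no_zero2 {a b c : ℤ} {A : ℕ} (h : a ^ 3 * b ^ 2 * c = 432 * (A : ℤ) ^ 2) (hA : Solved A)
    (α β γ δ : ℕ) : ¬ HasZero (mor a b c α β γ δ) := by
  rintro ⟨x, hx⟩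
  rw [value_mor] at hx
  have h' : (a : ℚ) ^ 3 * b ^ 2 * c = 432 * (A : ℚ) ^ 2 := by exact_mod_cast h
  refine mordell hA (x := -(a * b * (x 0 ^ γ * x 1 ^ δ))) (y := a ^ 2 * b * (x 0 ^ α * x 1 ^ β)) ?_
  linear_combination ((a : ℚ) ^ 3 * b ^ 2) * hx - h'

theorem one_iff2 (A : ℕ) (α β γ δ : ℕ) :
    t2 (mor 1 (-1) (432 * (A : ℤ) ^ 2) α β γ δ) ↔ Solved A := by
  rw [t2_iff]
  constructor
  · rintro ⟨a, b, c, α', β', γ', δ', A', h1, h2, h3⟩
    unfold mor at h1
    simp only [List.cons.injEq, Prod.mk.injEq] at h1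
    rw [← h1.1.1, ← h1.2.1.1, ← h1.2.2.1.1] at h2
    have h4 : (A : ℤ) ^ 2 = (A' : ℤ) ^ 2 := by linarith
    have h5 : A ^ 2 = A' ^ 2 := by exact_mod_cast h4
    have h6 : A = A' := Nat.pow_left_injective (by norm_num : (2 : ℕ) ≠ 0) h5
    rw [h6]
    exact h3
  · intro h
    exact ⟨1, -1, 432 * (A : ℤ) ^ 2, α, β, γ, δ, A, rfl, by ring, h⟩

/-- **Main theorem.** There are an algorithm for the first kind and an algorithm for the second kind,
halting on all inputs, with (see `Test`):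
(1) if `g P = true` then `P` has no rational zero;
(2) `g P = true` if and only if `P = a x^{3α} y^{3β} + b x^{3γ} y^{3δ} + c`, where `|a b c| = N t³` with
`N ≠ 2` in the class, `E_N(ℚ)` finite and `Ш(E_N/ℚ)[3^∞] = 0`, and `a² c` and `b² c` are not cubes; for
the second kind, `P = a x^{2α} y^{2β} + b x^{3γ} y^{3δ} + c` and `a³ b² c = 432 (N t³)²`, with such an
`N`;
(3) for all `α, β, γ, δ`, the proportion of the `A` in the class for which `g` is `true` at
`x^{3α} y^{3β} + x^{3γ} y^{3δ} - A`, for the second kind at `x^{2α} y^{2β} - x^{3γ} y^{3δ} + 432 A²`, is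
`∏_{i ≥ 1} (1 - 3^{-i})`;
(4) let `S` be a set of primes and `k` a number with `Rich S k`: the number of the members of
`Family S k` has the order of magnitude `X (log log X)^k / log X`, and the proportion of the members
`A` for which `g` is `true` at this polynomial tends to `∏_{1 ≤ i ≤ k} (1 - 3^{-i})`;
(5) the condition on `S` holds for the residue classes `c` modulo `q`, with `q` prime to `3` and `c`
prime to `q`.
(6) If `|a b c| = N t³` as in (2) and `a X³ + b Y³ + c Z³ = 0` with rational `X, Y, Z`, then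
`X Y Z = 0`. -/
theorem result :
    (∃ g : List (ℤ × List ℕ) → Bool, Computable g ∧ Test g First fun A => tri 1 1 (-(A : ℤ))) ∧
    (∃ g : List (ℤ × List ℕ) → Bool, Computable g ∧
      Test g Second fun A => mor 1 (-1) (432 * (A : ℤ) ^ 2)) ∧
    (∀ q c : ℕ, Nat.Coprime q 3 → Nat.Coprime c q → ∀ k : ℕ, Rich {p | p % q = c % q} k) ∧
    ∀ a b c : ℤ, Solved (a * b * c).natAbs → ∀ X Y Z : ℚ,
      a * X ^ 3 + b * Y ^ 3 + c * Z ^ 3 = 0 → X * Y * Z = 0 := by
  classical
  obtain ⟨hd, hcomp⟩ := prim_tt.computablePred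
  obtain ⟨hd2, hcomp2⟩ := prim_t2.computablePred
  obtain ⟨g₀, -, -, r2, r3, r4, r5⟩ := MP_8e0b0b_nt.AlgorithmForTwists.result
  have heq : ∀ α β γ δ : ℕ, (fun A : ℕ => decide (tt (tri 1 1 (-(A : ℤ)) α β γ δ))) = g₀ := by
    intro α β γ δ
    funext A
    rw [Bool.eq_iff_iff, decide_eq_true_iff, one_iff, r2]
    exact Iff.rfl
  have heq2 : ∀ α β γ δ : ℕ,
      (fun A : ℕ => decide (t2 (mor 1 (-1) (432 * (A : ℤ) ^ 2) α β γ δ))) = g₀ := by
    intro α β γ δ
    funext A
    rw [Bool.eq_iff_iff, decide_eq_true_iff, one_iff2, r2]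
    exact Iff.rfl
  refine ⟨⟨fun L => decide (tt L), hcomp, fun L h => ?_, fun L =>
    decide_eq_true_iff.trans (tt_iff L), fun α β γ δ => ?_, fun S k hS => ⟨(r4 S k hS).1,
    fun α β γ δ => ?_⟩⟩, ⟨fun L => decide (t2 L), hcomp2, fun L h => ?_, fun L =>
    decide_eq_true_iff.trans (t2_iff L), fun α β γ δ => ?_, fun S k hS => ⟨(r4 S k hS).1,
    fun α β γ δ => ?_⟩⟩, r5, fun a b c h X Y Z he => core h he⟩
  · obtain ⟨a, b, c, α, β, γ, δ, rfl, h1, h2, h3⟩ := (tt_iff L).1 (decide_eq_true_iff.1 h)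
    exact no_zero h1 h2 h3 α β γ δ
  · show Share (fun A : ℕ => decide (tt (tri 1 1 (-(A : ℤ)) α β γ δ))) InClass _
    rw [heq]
    exact r3
  · show Share (fun A : ℕ => decide (tt (tri 1 1 (-(A : ℤ)) α β γ δ))) (Family S k) _
    rw [heq]
    exact (r4 S k hS).2
  · obtain ⟨a, b, c, α, β, γ, δ, A, rfl, h1, h2⟩ := (t2_iff L).1 (decide_eq_true_iff.1 h)
    exact no_zero2 h1 h2 α β γ δ
  · show Share (fun A : ℕ => decide (t2 (mor 1 (-1) (432 * (A : ℤ) ^ 2) α β γ δ))) InClass _
    rw [heq2]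
    exact r3
  · show Share (fun A : ℕ => decide (t2 (mor 1 (-1) (432 * (A : ℤ) ^ 2) α β γ δ))) (Family S k) _
    rw [heq2]
    exact (r4 S k hS).2

end Pool.Agent.Results.MP_c72338_lc.TrinomialsWithoutZeros
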